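import Pool.Agent.TH316.FQ.Clo

set_option autoImplicit false
set_option maxHeartbeats 4000000

/-!
# Polya's inequality is strict, uniformly for bounded eigenvalue

For open sets of area at most one and first eigenvalue at most `N` one has `λ₁ T ≤ 1 / (1 + c(N))`, `c(N) > 0`.
-/

open MeasureTheory Metric Set Filter
open scoped Topology ENNReal

namespace Pool.Agent.Y603.EQ

theorem arith {C M s k : ℝ} (hC : 0 ≤ C) (hM : 1 ≤ M) (hs0 : 0 ≤ s)
    (hs : s < 1 / (64 * (C + 1) ^ 2 * M)) (hk : k ≤ 2 * M) :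
    C * (s + √s * √k) < 1 / 2 := by
  have hC1 : 1 ≤ (C + 1) ^ 2 := one_le_pow₀ (by linarith)
  have hCp : 0 < C + 1 := by linarith
  have hMp : 0 < M := by linarith
  have h0 : 0 < 64 * (C + 1) ^ 2 * M := by positivity
  have h1 : s * (64 * (C + 1) ^ 2 * M) < 1 := (lt_div_iff₀ h0).1 hs
  have h2 : √s * √k ≤ 1 / (4 * (C + 1)) := by
    rw [← Real.sqrt_mul hs0]
    refine Real.sqrt_le_iff.2 ⟨by positivity, ?_⟩
    have e : (1 / (4 * (C + 1))) ^ 2 = 1 / (16 * (C + 1) ^ 2) := by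
      rw [div_pow, one_pow, mul_pow]; norm_num
    rw [e, le_div_iff₀ (by positivity)]
    have : s * k ≤ s * (2 * M) := by gcongr
    have h3 : s * k * (16 * (C + 1) ^ 2) ≤ s * (2 * M) * (16 * (C + 1) ^ 2) := by gcongr
    nlinarith [mul_nonneg hs0 (by positivity : 0 ≤ (C + 1) ^ 2 * M)]
  have h3 : s ≤ 1 / (4 * (C + 1)) * (1 / 16) := by
    have e : 1 / (4 * (C + 1)) * (1 / 16) = 1 / (64 * (C + 1)) := by field_simp; norm_num
    rw [e, le_div_iff₀ (by positivity)]
    have : (C + 1) ≤ (C + 1) ^ 2 * M := by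
      calc (C + 1) = (C + 1) * 1 := by ring
        _ ≤ (C + 1) * ((C + 1) * M) := by
          apply mul_le_mul_of_nonneg_left _ hCp.le
          nlinarith
        _ = _ := by ring
    have h5 : s * (64 * (C + 1)) ≤ s * (64 * ((C + 1) ^ 2 * M)) := by gcongr
    nlinarith
  have h4 : 0 ≤ 1 / (4 * (C + 1)) := by positivity
  have h5 : C * (1 / (4 * (C + 1))) ≤ 1 / 4 := by
    rw [mul_one_div, div_le_div_iff₀ (by positivity) (by norm_num)]
    linarith
  have h6 : C * (s + √s * √k) ≤ C * (1 / (4 * (C + 1)) * (1 / 16) + 1 / (4 * (C + 1))) := by gcongr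
  have h7 : C * (1 / (4 * (C + 1)) * (1 / 16) + 1 / (4 * (C + 1))) = C * (1 / (4 * (C + 1))) * (17 / 16) := by ring
  linarith

/-- a translation which moves at least half of a set of area at most one off the set -/
theorem exists_shift {V : Set ℂ} (hV : MeasurableSet V) (h1 : volume V ≤ 1) :
    ∃ h : ℂ, ‖h‖ ≤ 4 ∧ volume (V ∩ {z | z + h ∈ V}) ≤ 1 / 2 := by
  by_contra hcon
  push Not at hcon
  set f : ℂ → ℂ → ℝ≥0∞ := fun h z => V.indicator 1 (z + h) with hf
  have hfm : Measurable (Function.uncurry f) := by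
    have : Measurable (V.indicator (1 : ℂ → ℝ≥0∞)) := measurable_one.indicator hV
    exact this.comp (measurable_snd.add measurable_fst)
  have e1 : ∀ h : ℂ, volume (V ∩ {z | z + h ∈ V}) = ∫⁻ z in V, f h z := by
    intro h
    have hm : MeasurableSet {z : ℂ | z + h ∈ V} := (measurable_id.add_const h) hV
    have : ∀ z, f h z = ({z : ℂ | z + h ∈ V} : Set ℂ).indicator (1 : ℂ → ℝ≥0∞) z := by
      intro z
      by_cases hz : z + h ∈ V
      · rw [indicator_of_mem (show z ∈ {z : ℂ | z + h ∈ V} from hz)]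
        exact indicator_of_mem hz _
      · rw [indicator_of_notMem (show z ∉ {z : ℂ | z + h ∈ V} from hz)]
        exact indicator_of_notMem hz _
    rw [lintegral_congr this, lintegral_indicator_one hm, Measure.restrict_apply hm, inter_comm]
  have h2 : (1 / 2 : ℝ≥0∞) * volume (closedBall (0 : ℂ) 4) ≤ ∫⁻ h in closedBall (0 : ℂ) 4, ∫⁻ z in V, f h z := by
    calc (1 / 2 : ℝ≥0∞) * volume (closedBall (0 : ℂ) 4) = ∫⁻ _h in closedBall (0 : ℂ) 4, (1 / 2 : ℝ≥0∞) :=
          (setLIntegral_const _ _).symm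
      _ ≤ _ := by
        refine setLIntegral_mono' measurableSet_closedBall fun h hh => ?_
        rw [← e1]
        exact (hcon h (by simpa using hh)).le
  have h3 : ∫⁻ h in closedBall (0 : ℂ) 4, ∫⁻ z in V, f h z ≤ 1 := by
    rw [lintegral_lintegral_swap hfm.aemeasurable]
    calc ∫⁻ z in V, ∫⁻ h in closedBall (0 : ℂ) 4, f h z
        ≤ ∫⁻ _z in V, volume V := by
          refine lintegral_mono fun z => ?_
          refine (setLIntegral_le_lintegral _ _).trans ?_
          show ∫⁻ h, V.indicator 1 (z + h) ≤ volume V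
          rw [lintegral_add_left_eq_self (V.indicator (1 : ℂ → ℝ≥0∞)) z, lintegral_indicator_one hV]
      _ = volume V * volume V := by rw [setLIntegral_const]
      _ ≤ 1 * 1 := mul_le_mul' h1 h1
      _ = 1 := one_mul 1
  have h4 := h2.trans h3
  rw [Complex.volume_closedBall] at h4
  have h5 : (1 / 2 : ℝ≥0∞) * (ENNReal.ofReal 4 ^ 2 * (NNReal.pi : ℝ≥0∞)) = ENNReal.ofReal (8 * Real.pi) := by
    have k1 : (1 / 2 : ℝ≥0∞) = ENNReal.ofReal (1 / 2) := by
      rw [ENNReal.ofReal_div_of_pos (by norm_num)]; simp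
    have k2 : (NNReal.pi : ℝ≥0∞) = ENNReal.ofReal Real.pi := by
      rw [ENNReal.ofReal, ← NNReal.coe_real_pi, Real.toNNReal_coe]
    rw [k1, k2, ← ENNReal.ofReal_pow (by norm_num : (0:ℝ) ≤ 4), ← ENNReal.ofReal_mul (by norm_num : (0:ℝ) ≤ 4 ^ 2),
      ← ENNReal.ofReal_mul (by norm_num : (0:ℝ) ≤ 1 / 2)]
    congr 1
    ring
  rw [h5, ENNReal.ofReal_le_one] at h4
  nlinarith [Real.pi_gt_three]

open Pool.Agent.Helper533.StarBox Pool.Agent.TH316.FQ

/-- Poincare's inequality for `H¹₀` functions -/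
theorem poincare {U : Set ℂ} {f p q : ℂ → ℝ} (h : HW U f p q) :
    lambda1 U * ∫ z, f z ^ 2 ≤ ∫ z, (p z ^ 2 + q z ^ 2) := by
  obtain ⟨u, hu, h1, h2, h3⟩ := h.seq
  have k1 := h1.sq.const_mul (lambda1 U)
  have k2 := h2.sq.add h3.sq
  have e : ∫ z, (p z ^ 2 + q z ^ 2) = (∫ z, p z ^ 2) + ∫ z, q z ^ 2 :=
    integral_add h.mp.integrable_sq h.mq.integrable_sq
  rw [e]
  refine le_of_tendsto_of_tendsto' k1 k2 fun n => ?_
  have := lambda1_mul_le (hu n)
  rw [Ip_self, En_self] at this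
  refine this.trans (le_of_eq ?_)
  exact integral_add (h2.ma n).integrable_sq (h3.ma n).integrable_sq

/-- the strict form of Polya's inequality, for area one -/
theorem strict_one : ∃ C : ℝ, 0 ≤ C ∧ ∀ U : Set ℂ, Adm U → ar U = 1 →
    1 / 2 ≤ C * (((lambda1 U * tor U)⁻¹ - 1) + √((lambda1 U * tor U)⁻¹ - 1) * √(1 / tor U)) := by
  obtain ⟨C, hC0, hC⟩ := tra1
  refine ⟨C, hC0, fun U hU hA => ?_⟩
  obtain ⟨-, u2, u3, u4, u5, u6, -, -⟩ := fin_pol U hU
  obtain ⟨w, wx, wy, hT⟩ := fin_tor U hU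
  have hUo := hU.1
  have hUf := hU.2.2
  have hI := ind_memLp hUo hUf
  obtain ⟨k, hk⟩ : ∃ k : ℝ, k = 1 / tor U := ⟨_, rfl⟩
  have hk0 : 0 < k := by rw [hk]; positivity
  have hw2 : ∫ z, w z ^ 2 ≤ tor U / lambda1 U := by
    rw [le_div_iff₀ u2, mul_comm]
    refine (poincare hT.hw).trans ?_
    rw [hT.en]
  have hv := hT.hw.smul k
  have i3 : Integrable (fun z => (k * w z) ^ 2) := hv.mf.integrable_sq
  have i1 := hI.integrable_sq
  have i2 : Integrable (fun z => 2 * (ind U z * (k * w z))) := (hI.integrable_mul hv.mf).const_mul 2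
  have i4 : Integrable (fun z => ind U z ^ 2 - 2 * (ind U z * (k * w z))) := i1.sub i2
  have e1 : ∫ z, (ind U z - k * w z) ^ 2 =
      (∫ z, ind U z ^ 2) - 2 * (∫ z, ind U z * (k * w z)) + ∫ z, (k * w z) ^ 2 := by
    rw [← integral_const_mul, ← integral_sub i1 i2, ← integral_add i4 i3]
    congr 1; ext z; ring
  have e2 : ∫ z, ind U z ^ 2 = 1 := by
    rw [← hA, ← integral_ind hUo]
    congr 1; ext z
    by_cases hz : z ∈ U
    · rw [ind_of_mem hz]; norm_num
    · rw [ind_of_notMem hz]; norm_num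
  have e3 : ∫ z, ind U z * (k * w z) = 1 := by
    have h0 : ∫ z, ind U z * (k * w z) = ∫ z, k * w z := by
      apply integral_congr_ae
      filter_upwards [out U w wx wy hUo hT.hw] with z hz
      by_cases hzV : z ∈ U
      · rw [ind_of_mem hzV, one_mul]
      · rw [(hz hzV).1, mul_zero, mul_zero]
    rw [h0, integral_const_mul, hT.it, hk, one_div, inv_mul_cancel₀ u3.ne']
  have e4 : ∫ z, (k * w z) ^ 2 = k ^ 2 * ∫ z, w z ^ 2 := by
    rw [← integral_const_mul]
    congr 1; ext z; ring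
  have e5 : ∫ z, ((k * wx z) ^ 2 + (k * wy z) ^ 2) = 1 / tor U := by
    have : ∫ z, ((k * wx z) ^ 2 + (k * wy z) ^ 2) = k ^ 2 * ∫ z, (wx z ^ 2 + wy z ^ 2) := by
      rw [← integral_const_mul]
      congr 1; ext z; ring
    rw [this, hT.en, hk]
    field_simp
  have h1 : ∫ z, (ind U z - k * w z) ^ 2 ≤ (lambda1 U * tor U)⁻¹ - 1 := by
    rw [e1, e2, e3, e4]
    have h0 : k ^ 2 * ∫ z, w z ^ 2 ≤ k ^ 2 * (tor U / lambda1 U) := by gcongr
    have e : k ^ 2 * (tor U / lambda1 U) = (lambda1 U * tor U)⁻¹ := by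
      rw [hk]; field_simp
    rw [e] at h0
    linarith
  have hV1 : volume U ≤ 1 := by
    have h0 : (volume U).toReal ≤ 1 := hA.le
    rw [← ENNReal.ofReal_toReal hUf]
    exact ENNReal.ofReal_le_one.2 h0
  obtain ⟨h, hh, hs⟩ := exists_shift hUo.measurableSet hV1
  have h2 : ∫ z, |ind U (z + h) - ind U z| ≤ C * ((∫ z, (ind U z - k * w z) ^ 2) +
      √(∫ z, (ind U z - k * w z) ^ 2) * √(∫ z, ((k * wx z) ^ 2 + (k * wy z) ^ 2))) :=
    hC U _ _ _ hUo hUf hv h hh
  rw [e5] at h2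
  have hm : MeasurableSet {z : ℂ | z + h ∈ U} := (measurable_id.add_const h) hUo.measurableSet
  have hS : MeasurableSet (U ∩ {z : ℂ | z + h ∈ U}) := hUo.measurableSet.inter hm
  obtain ⟨S, hSe⟩ : ∃ S, S = U ∩ {z : ℂ | z + h ∈ U} := ⟨_, rfl⟩
  rw [← hSe] at hs hS
  have h3 : 1 / 2 ≤ ∫ z, |ind U (z + h) - ind U z| := by
    have j1 : Integrable (ind U) := ind_integrable hUo hUf
    have j2 : Integrable (fun z => ind U (z + h)) := j1.comp_add_right h
    have hSf : volume S ≠ ⊤ := ne_top_of_le_ne_top hUf (measure_mono (hSe ▸ inter_subset_left))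
    have j3 : Integrable (ind S) := by
      unfold ind
      rw [integrable_indicator_iff hS]
      exact integrableOn_const hSf
    have j4 : ∫ z, ind S z ≤ 1 / 2 := by
      have k1 : ∫ z, ind S z = (volume S).toReal := by
        unfold ind
        rw [integral_indicator hS]
        simp [Measure.real]
      rw [k1]
      have k2 : (volume S).toReal ≤ (1 / 2 : ℝ≥0∞).toReal := ENNReal.toReal_mono (by simp) hs
      simpa using k2
    calc (1 / 2 : ℝ) ≤ (∫ z, ind U z) - ∫ z, ind S z := by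
          rw [integral_ind hUo, hA]; linarith
      _ = ∫ z, (ind U z - ind S z) := (integral_sub j1 j3).symm
      _ ≤ ∫ z, |ind U (z + h) - ind U z| := by
          refine integral_mono (j1.sub j3) (j2.sub j1).abs fun z => ?_
          show ind U z - ind S z ≤ |ind U (z + h) - ind U z|
          by_cases hz : z ∈ U
          · by_cases hz2 : z + h ∈ U
            · rw [ind_of_mem hz, ind_of_mem hz2, ind_of_mem (show z ∈ S by rw [hSe]; exact ⟨hz, hz2⟩)]
              simp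
            · rw [ind_of_mem hz, ind_of_notMem hz2,
                ind_of_notMem (show z ∉ S by rw [hSe]; exact fun hc => hz2 hc.2)]
              simp
          · rw [ind_of_notMem hz, ind_of_notMem (show z ∉ S by rw [hSe]; exact fun hc => hz hc.1)]
            simp
  refine h3.trans (h2.trans ?_)
  gcongr

/-- the strict form of Polya's inequality -/
theorem strict (N : ℝ) : ∃ c : ℝ, 0 < c ∧ ∀ U : Set ℂ, Adm U → ar U ≤ 1 → lambda1 U ≤ N →
    1 + c ≤ (lambda1 U * tor U)⁻¹ := by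
  obtain ⟨C, hC0, hC⟩ := strict_one
  obtain ⟨M, hM⟩ : ∃ M : ℝ, M = max N 1 := ⟨_, rfl⟩
  have hM1 : 1 ≤ M := by rw [hM]; exact le_max_right _ _
  have hMN : N ≤ M := by rw [hM]; exact le_max_left _ _
  obtain ⟨c, hc⟩ : ∃ c : ℝ, c = 1 / (64 * (C + 1) ^ 2 * M) := ⟨_, rfl⟩
  have hC1 : 1 ≤ (C + 1) ^ 2 := one_le_pow₀ (by linarith)
  have hCM : 1 ≤ (C + 1) ^ 2 * M := one_le_mul_of_one_le_of_one_le hC1 hM1
  have hden : 1 ≤ 64 * (C + 1) ^ 2 * M := by
    have : 64 * (C + 1) ^ 2 * M = 64 * ((C + 1) ^ 2 * M) := by ring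
    rw [this]; linarith
  have hc0 : 0 < c := by rw [hc]; positivity
  have hc1 : c ≤ 1 := by
    rw [hc]; exact (div_le_one (by linarith)).2 hden
  refine ⟨c, hc0, fun U hU hA hN => ?_⟩
  obtain ⟨-, u2, u3, u4, -, -, -, -⟩ := fin_pol U hU
  have hca : 0 < √(ar U) := Real.sqrt_pos.2 u4
  obtain ⟨a1, a2, a3, a4⟩ := sca U (√(ar U)) hU hca
  obtain ⟨V, hV⟩ : ∃ V : Set ℂ, V = {z | √(ar U) • z ∈ U} := ⟨_, rfl⟩
  rw [← hV] at a1 a2 a3 a4
  have hsq : √(ar U) ^ 2 = ar U := Real.sq_sqrt u4.le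
  have hsq4 : √(ar U) ^ 4 = ar U ^ 2 := by
    rw [show (4 : ℕ) = 2 * 2 by norm_num, pow_mul, hsq]
  rw [hsq] at a2 a4
  rw [hsq4] at a3
  rw [div_self u4.ne'] at a4
  obtain ⟨-, v2, v3, v4, v5, v6, -, -⟩ := fin_pol V a1
  have h1 := hC V a1 a4
  have hposU : 0 < lambda1 U * tor U := by positivity
  have hposV : 0 < lambda1 V * tor V := by positivity
  have hlT : lambda1 V * tor V = lambda1 U * tor U / ar U := by
    rw [a2, a3]; field_simp
  have hs1 : (lambda1 V * tor V)⁻¹ ≤ (lambda1 U * tor U)⁻¹ := by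
    apply inv_anti₀ hposU
    rw [hlT, le_div_iff₀ u4]
    exact mul_le_of_le_one_right hposU.le hA
  refine le_trans ?_ hs1
  by_contra hlt
  push Not at hlt
  obtain ⟨s, hs⟩ : ∃ s : ℝ, s = (lambda1 V * tor V)⁻¹ - 1 := ⟨_, rfl⟩
  rw [← hs] at h1
  have hsc : s < c := by rw [hs]; linarith
  have hs0 : 0 ≤ s := by
    have : 1 ≤ (lambda1 V * tor V)⁻¹ := (one_le_inv₀ hposV).2 (by rw [a4] at v6; exact v6)
    rw [hs]; linarith
  have hT : 1 / tor V ≤ 2 * M := by
    have e : 1 / tor V = lambda1 V * (1 + s) := by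
      have e' : 1 + s = (lambda1 V * tor V)⁻¹ := by rw [hs]; ring
      rw [e']; field_simp
    have hlV : lambda1 V ≤ M := by
      rw [a2]
      have : ar U * lambda1 U ≤ 1 * lambda1 U := by gcongr
      linarith
    rw [e]
    calc lambda1 V * (1 + s) ≤ M * 2 := by
          apply mul_le_mul hlV (by linarith) (by linarith) (by linarith)
      _ = 2 * M := mul_comm _ _
  have := arith hC0 hM1 hs0 (by rw [← hc]; exact hsc) hT
  linarith

end Pool.Agent.Y603.EQ
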