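import Pool.Agent.Y603.EQ.Gap

set_option autoImplicit false
set_option maxHeartbeats 4000000

/-! The attainable set misses limit points with arbitrarily large eigenvalue. -/

open MeasureTheory Metric Set Filter
open scoped Topology

namespace Pool.Agent.Y603.EQ

open Pool.Agent.Helper533.StarBox Pool.Agent.TH316.FQ

/-- points of the closure -/
theorem closure_prop {p : ℝ × ℝ} (hp : p ∈ closure EC) : 0 ≤ p.1 ∧ 1 ≤ p.2 ∧ 2 ≤ p.1 * p.2 := by
  have hsub : EC ⊆ {p : ℝ × ℝ | 0 ≤ p.1} ∩ {p : ℝ × ℝ | 1 ≤ p.2} ∩ {p : ℝ × ℝ | 2 ≤ p.1 * p.2} := by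
    rintro _ ⟨U, hU, hU1, rfl⟩
    obtain ⟨-, u2, u3, u4, u5, u6, -, -⟩ := fin_pol U hU
    have h0 : 0 < lambda1 U * tor U := by positivity
    refine ⟨⟨u2.le, ?_⟩, ?_⟩
    · show 1 ≤ (lambda1 U * tor U)⁻¹
      rw [one_le_inv₀ h0]; linarith
    · show 2 ≤ lambda1 U * (lambda1 U * tor U)⁻¹
      have e : lambda1 U * (lambda1 U * tor U)⁻¹ = 1 / tor U := by field_simp
      rw [e, le_div_iff₀ u3]
      have : ar U ^ 2 ≤ 1 := pow_le_one₀ u4.le hU1
      linarith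
  have hcl : IsClosed ({p : ℝ × ℝ | 0 ≤ p.1} ∩ {p : ℝ × ℝ | 1 ≤ p.2} ∩ {p : ℝ × ℝ | 2 ≤ p.1 * p.2}) := by
    refine ((isClosed_le continuous_const continuous_fst).inter
      (isClosed_le continuous_const continuous_snd)).inter
      (isClosed_le continuous_const (continuous_fst.mul continuous_snd))
  obtain ⟨⟨h1, h2⟩, h3⟩ := closure_minimal hsub hcl hp
  exact ⟨h1, h2, h3⟩

/-- every point of the closure has second coordinate larger than one -/
theorem closure_strict (N : ℝ) : ∃ c : ℝ, 0 < c ∧ ∀ p ∈ closure EC, p.1 ≤ N → 1 + c ≤ p.2 := by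
  obtain ⟨c, hc, h⟩ := strict (N + 1)
  refine ⟨c, hc, fun p hp hpN => ?_⟩
  have hopen : IsOpen {p : ℝ × ℝ | p.1 < N + 1} := isOpen_lt continuous_fst continuous_const
  have hp' : p ∈ closure (EC ∩ {p : ℝ × ℝ | p.1 < N + 1}) := by
    rw [_root_.mem_closure_iff] at hp ⊢
    intro o ho hpo
    obtain ⟨x, hx1, hx2⟩ := hp (o ∩ {p : ℝ × ℝ | p.1 < N + 1}) (ho.inter hopen)
      ⟨hpo, by show p.1 < N + 1; linarith⟩
    exact ⟨x, hx1.1, hx2, hx1.2⟩
  have hcl : IsClosed {p : ℝ × ℝ | 1 + c ≤ p.2} := isClosed_le continuous_const continuous_snd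
  refine closure_minimal ?_ hcl hp'
  rintro _ ⟨⟨U, hU, hU1, rfl⟩, hx⟩
  exact h U hU hU1 (le_of_lt hx)

theorem gg_le {q : ℝ} (hq : 1 < q) {p : ℝ × ℝ} (hp : p ∈ closure EC) : GG q p ≤ p.2⁻¹ := by
  obtain ⟨h1, h2, h3⟩ := closure_prop hp
  have hx : 0 < p.1 := by
    rcases h1.lt_or_eq with h | h
    · exact h
    · rw [← h, zero_mul] at h3; norm_num at h3
  have hy : 0 < p.2 := by linarith
  unfold GG
  have hT0 : 0 < p.1⁻¹ * p.2⁻¹ := by positivity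
  have hT1 : p.1⁻¹ * p.2⁻¹ ≤ 1 := by
    rw [← mul_inv]; exact inv_le_one_of_one_le₀ (by linarith)
  have : (p.1⁻¹ * p.2⁻¹) ^ q ≤ (p.1⁻¹ * p.2⁻¹) ^ (1 : ℝ) :=
    Real.rpow_le_rpow_of_exponent_ge hT0 hT1 hq.le
  rw [Real.rpow_one] at this
  calc p.1 * (p.1⁻¹ * p.2⁻¹) ^ q ≤ p.1 * (p.1⁻¹ * p.2⁻¹) := by gcongr
    _ = p.2⁻¹ := by field_simp

/-- missing points -/
theorem missing : ∀ N ε : ℝ, 0 < ε → ∃ p ∈ closure EC \ EC, N < p.1 ∧ 1 < p.2 ∧ p.2 < 1 + ε := by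
  intro N ε hε
  obtain ⟨q₀, hq₀, hno⟩ := no_max
  obtain ⟨c, hc, hstr⟩ := closure_strict N
  -- the size of the error
  set e₁ : ℝ := min c ε with he₁
  have he₁0 : 0 < e₁ := lt_min hc hε
  set δ : ℝ := e₁ / (4 * (1 + e₁)) with hδ
  have hδ0 : 0 < δ := by positivity
  have hδ1 : δ < 1 / 4 := by
    rw [hδ, div_lt_iff₀ (by positivity)]; linarith
  have hδ2 : 1 / (1 + e₁) < (1 - δ) * (1 - δ) := by
    have h1 : 1 - 2 * δ ≤ (1 - δ) * (1 - δ) := by nlinarith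
    refine lt_of_lt_of_le ?_ h1
    have h2 : 2 * δ = e₁ / (2 * (1 + e₁)) := by rw [hδ]; field_simp; ring
    rw [h2, div_lt_iff₀ (by positivity)]
    have : (1 - e₁ / (2 * (1 + e₁))) * (1 + e₁) = 1 + e₁ / 2 := by field_simp; ring
    rw [this]; linarith
  obtain ⟨V₁, hV₁, hV₁b⟩ := fin_perf δ hδ0
  obtain ⟨-, p2, p3, p4, p5, -, -, -⟩ := fin_pol V₁ hV₁
  have hlim : Tendsto (fun q : ℝ => (tor V₁ / ar V₁ ^ 2) ^ (q - 1)) (𝓝 1) (𝓝 1) := by
    have h0 : 0 < tor V₁ / ar V₁ ^ 2 := by positivity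
    have h1 : ContinuousAt (fun q : ℝ => (tor V₁ / ar V₁ ^ 2) ^ (q - 1)) 1 :=
      (Real.continuousAt_const_rpow h0.ne').comp (by fun_prop : ContinuousAt (fun q : ℝ => q - 1) 1)
    have := h1.tendsto
    simpa using this
  have hev := hlim.eventually (lt_mem_nhds (show 1 - δ < 1 by linarith))
  rw [Metric.eventually_nhds_iff] at hev
  obtain ⟨r, hr, hev⟩ := hev
  set g : ℝ := min r (q₀ - 1) with hg
  have hg0 : 0 < g := lt_min hr (by linarith)
  set q : ℝ := 1 + g / 2 with hq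
  have hq1 : 1 < q := by rw [hq]; linarith
  have hqr : q - 1 < r := by have := min_le_left r (q₀ - 1); rw [hq]; linarith
  have hqq : q < q₀ := by have := min_le_right r (q₀ - 1); rw [hq]; linarith
  have hG : 1 - δ < (tor V₁ / ar V₁ ^ 2) ^ (q - 1) := by
    apply hev
    rw [Real.dist_eq, abs_of_pos (by linarith)]; exact hqr
  have hFV₁ : (1 - δ) * (1 - δ) ≤ Fc q V₁ := by
    unfold Fc
    rw [dt_Fc p3 p4]
    apply mul_le_mul _ hG.le (by linarith) (by positivity)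
    rw [le_div_iff₀ p4]; exact hV₁b
  -- normalisation to unit area
  have hnorm : ∀ V, Adm V → ∃ W, Adm W ∧ ar W = 1 ∧ Fc q W = Fc q V := by
    intro V hV
    obtain ⟨-, -, -, v4, -, -, -, -⟩ := fin_pol V hV
    have hc : 0 < √(ar V) := Real.sqrt_pos.2 v4
    obtain ⟨a1, -, -, a4⟩ := sca V (√(ar V)) hV hc
    refine ⟨_, a1, ?_, dt_scale fin_pol sca hV hc⟩
    rw [a4, Real.sq_sqrt v4.le, div_self v4.ne']
  have hF1 : ∀ W, Adm W → ar W = 1 → Fc q W = lambda1 W * tor W ^ q := by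
    intro W _ h1
    unfold Fc; rw [h1, Real.one_rpow, div_one]
  obtain ⟨V₀, hV₀, hV₀1, hV₀F⟩ := hnorm _ hV₁
  set m : ℝ := Fc q V₀ with hm
  have hm0 : 0 < m := fc_pos hV₀
  set τ : ℝ := m ^ (1 / (q - 1)) with hτ
  have hτ0 : 0 < τ := Real.rpow_pos_of_pos hm0 _
  have hqm : 0 < q - 1 := by linarith
  -- bounds
  have hbd : ∀ W, Adm W → ar W = 1 → m ≤ Fc q W → lambda1 W ≤ 1 / τ ∧ (lambda1 W * tor W)⁻¹ ≤ 1 / m := by
    intro W hW hW1 hWm
    obtain ⟨-, w2, w3, w4, w5, w6, -, -⟩ := fin_pol W hW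
    rw [hW1] at w5 w6
    rw [hF1 W hW hW1] at hWm
    have e1 : lambda1 W * tor W ^ q = (lambda1 W * tor W) * tor W ^ (q - 1) := by
      have := Real.rpow_add_one w3.ne' (q - 1)
      rw [sub_add_cancel] at this
      rw [this]; ring
    rw [e1] at hWm
    have hT1 : tor W ≤ 1 := by linarith
    have hTq : tor W ^ (q - 1) ≤ 1 := Real.rpow_le_one w3.le hT1 hqm.le
    have hTq0 : 0 < tor W ^ (q - 1) := Real.rpow_pos_of_pos w3 _
    have hlT : 0 < lambda1 W * tor W := mul_pos w2 w3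
    have k1 : m ≤ lambda1 W * tor W := hWm.trans (mul_le_of_le_one_right hlT.le hTq)
    have k2 : m ≤ tor W ^ (q - 1) := hWm.trans (by
      have := mul_le_mul_of_nonneg_right w6 hTq0.le
      rw [one_mul] at this
      exact this)
    have k3 : τ ≤ tor W := by
      have := Real.rpow_le_rpow hm0.le k2 (show 0 ≤ 1 / (q - 1) by positivity)
      rw [← Real.rpow_mul w3.le, mul_one_div_cancel hqm.ne', Real.rpow_one] at this
      exact this
    constructor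
    · rw [le_div_iff₀ hτ0]
      calc lambda1 W * τ ≤ lambda1 W * tor W := mul_le_mul_of_nonneg_left k3 w2.le
        _ ≤ 1 := w6
    · rw [inv_eq_one_div]
      exact one_div_le_one_div_of_le hm0 k1
  -- the compact set
  set K : Set (ℝ × ℝ) := closure EC ∩ (Icc 0 (1 / τ) ×ˢ Icc 0 (1 / m)) with hK
  have hKc : IsCompact K := (isCompact_Icc.prod isCompact_Icc).inter_left isClosed_closure
  have hmem : ∀ W, Adm W → ar W = 1 → m ≤ Fc q W → (lambda1 W, (lambda1 W * tor W)⁻¹) ∈ K := by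
    intro W hW hW1 hWm
    obtain ⟨-, w2, w3, w4, w5, w6, -, -⟩ := fin_pol W hW
    obtain ⟨b1, b2⟩ := hbd W hW hW1 hWm
    refine ⟨subset_closure ⟨W, hW, hW1.le, rfl⟩, ⟨⟨w2.le, b1⟩, ⟨?_, b2⟩⟩⟩
    show 0 ≤ (lambda1 W * tor W)⁻¹
    positivity
  have hKpos : ∀ p ∈ K, 0 < p.1 ∧ 0 < p.2 := by
    rintro p ⟨hp, -⟩
    obtain ⟨h1, h2, h3⟩ := closure_prop hp
    refine ⟨?_, by linarith⟩
    rcases h1.lt_or_eq with h | h
    · exact h
    · rw [← h, zero_mul] at h3; norm_num at h3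
  have hcont : ContinuousOn (GG q) K := cl_cont (by linarith) (fun p hp => (hKpos p hp).1)
    (fun p hp => (hKpos p hp).2)
  obtain ⟨p, hpK, hpmax⟩ := hKc.exists_isMaxOn ⟨_, hmem V₀ hV₀ hV₀1 le_rfl⟩ hcont
  have hpm : m ≤ GG q p := by
    have h1 := hpmax (hmem V₀ hV₀ hV₀1 le_rfl)
    rw [Set.mem_ofPred_eq, cl_GG hV₀] at h1
    rw [hm, hF1 V₀ hV₀ hV₀1]
    exact h1
  have hpc : p ∈ closure EC := hpK.1
  have hlow : (1 - δ) * (1 - δ) ≤ p.2⁻¹ := by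
    rw [← hV₀F] at hFV₁
    exact hFV₁.trans (hpm.trans (gg_le hq1 hpc))
  have hp2 : p.2 < 1 + e₁ := by
    obtain ⟨-, h2, -⟩ := closure_prop hpc
    have h3 : 1 / (1 + e₁) < p.2⁻¹ := hδ2.trans_le hlow
    rw [← one_div] at h3
    exact (one_div_lt_one_div (by positivity) (by linarith)).1 h3
  have hN : N < p.1 := by
    by_contra hcon
    push Not at hcon
    have h1 := hstr p hpc hcon
    have h2 : e₁ ≤ c := min_le_left _ _
    linarith
  have hone : 1 < p.2 := by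
    obtain ⟨c', hc', h'⟩ := closure_strict p.1
    linarith [h' p hpc le_rfl]
  refine ⟨p, ⟨hpc, ?_⟩, hN, hone, hp2.trans_le (by linarith [min_le_right c ε])⟩
  -- the point is not attained
  rintro ⟨U, hU, hU1, rfl⟩
  have hUF : lambda1 U * tor U ^ q ≤ Fc q U := by
    obtain ⟨-, u2, u3, u4, -, -, -, -⟩ := fin_pol U hU
    unfold Fc
    rw [le_div_iff₀ (Real.rpow_pos_of_pos u4 _)]
    have h1 : ar U ^ (2 * q - 1) ≤ 1 := Real.rpow_le_one u4.le hU1 (by linarith)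
    have h2 : 0 ≤ lambda1 U * tor U ^ q := mul_nonneg u2.le (Real.rpow_nonneg u3.le _)
    exact mul_le_of_le_one_right h2 h1
  have hcmp : ∀ W, Adm W → ar W = 1 → m ≤ Fc q W → Fc q W ≤ Fc q U := by
    intro W hW hW1 hWm
    have h1 := hpmax (hmem W hW hW1 hWm)
    rw [Set.mem_ofPred_eq, cl_GG hW, cl_GG hU] at h1
    rw [hF1 W hW hW1]
    exact h1.trans hUF
  apply hno q hq1 hqq U
  refine ⟨hU, fun V hV => ?_⟩
  obtain ⟨W, hW, hW1, hWF⟩ := hnorm V hV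
  rw [← hWF]
  rcases le_total m (Fc q W) with h | h
  · exact hcmp W hW hW1 h
  · exact h.trans (hcmp V₀ hV₀ hV₀1 le_rfl)

/-- the same for the attainable set in the Euclidean plane -/
theorem missing_pl : ∀ N ε : ℝ, 0 < ε → ∃ p ∈ closure EP \ EP, N < p.1 ∧ 1 < p.2 ∧ p.2 < 1 + ε := by
  rw [EP_eq]; exact missing

theorem closure_strict_pl : ∀ N : ℝ, ∃ c : ℝ, 0 < c ∧ ∀ p ∈ closure EP, p.1 ≤ N → 1 + c ≤ p.2 := by
  rw [EP_eq]; exact closure_strict

end Pool.Agent.Y603.EQ
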